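import Pool.Agent.helper5.LDH.Spec

/-!
# Project LDH (MP_4467b5_nt), row V2: the discrete second derivative test (helper90)
-/

set_option autoImplicit false

namespace Pool.Agent.LDH

open Finset

theorem V2_norm_ee (t : ℝ) : ‖ee t‖ = 1 := by
  unfold ee
  exact Complex.norm_exp_ofReal_mul_I _

theorem V2_conj_ee (t : ℝ) : (starRingEnd ℂ) (ee t) = ee (-t) := by
  unfold ee
  rw [← Complex.exp_conj]
  congr 1
  rw [map_mul, Complex.conj_I, Complex.conj_ofReal]
  push_cast
  ring

theorem V2_ee_sub_int (x : ℝ) (m : ℤ) (k : ℕ) : ee (x - (m : ℝ) * k) = ee x := by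
  unfold ee
  have e : (((2 * Real.pi * (x - (m : ℝ) * k) : ℝ) : ℂ) * Complex.I) =
      ((2 * Real.pi * x : ℝ) : ℂ) * Complex.I - ((m * k : ℤ) : ℂ) * (2 * Real.pi * Complex.I) := by
    push_cast
    ring
  rw [e, Complex.exp_sub, Complex.exp_int_mul_two_pi_mul_I, div_one]

/-- a downward closed condition on `k < n` is `k < p` -/
theorem V2_thr (P : ℕ → Prop) : ∀ n : ℕ, (∀ i j, i ≤ j → j < n → P j → P i) →
    ∃ p, p ≤ n ∧ ∀ k < n, (P k ↔ k < p) := by
  intro n
  induction n with
  | zero => intro _; exact ⟨0, le_refl _, fun k hk => absurd hk (Nat.not_lt_zero _)⟩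
  | succ n ih =>
    intro h
    by_cases hP : P n
    · refine ⟨n + 1, le_refl _, fun k hk => ⟨fun _ => hk, fun _ => h k n (by omega) (by omega) hP⟩⟩
    · obtain ⟨p, hp, hk⟩ := ih (fun i j hij hj => h i j hij (by omega))
      refine ⟨p, by omega, fun k hk' => ?_⟩
      rcases Nat.lt_or_ge k n with h1 | h1
      · exact hk k h1
      · have e : k = n := by omega
        subst e
        exact ⟨fun h2 => absurd h2 hP, fun h2 => by omega⟩

/-- the sum over an interval of indices with the increments in `[m + θ, m + 1 - θ]` -/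
theorem V2_good (hKL : KL_stmt) (x : ℕ → ℝ) (θ : ℝ) (hθ : 0 < θ) (hθ2 : θ ≤ 1 / 2) (m p q : ℕ)
    (h1 : ∀ k, p ≤ k → k < q → (m : ℝ) + θ ≤ x (k + 1) - x k)
    (h2 : ∀ k, p ≤ k → k < q → x (k + 1) - x k ≤ m + 1 - θ)
    (h3 : ∀ k, p ≤ k → k + 1 < q → x (k + 2) - x (k + 1) ≤ x (k + 1) - x k) :
    ‖∑ k ∈ Ico p q, ee (x k)‖ ≤ 2 / θ := by
  have hk := hKL (fun n => x (n - 1)) p q θ (m : ℤ) hθ hθ2
    (by
      intro n hn hn2
      obtain ⟨k, rfl⟩ : ∃ k, n = k + 1 := ⟨n - 1, by omega⟩
      have a1 := h1 k (by omega) (by omega)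
      have a2 := h2 k (by omega) (by omega)
      simp only [Nat.add_sub_cancel]
      push_cast
      exact ⟨a1, a2⟩)
    (Or.inr (by
      intro n hn hn2
      obtain ⟨k, rfl⟩ : ∃ k, n = k + 1 := ⟨n - 1, by omega⟩
      have a1 := h3 k (by omega) (by omega)
      have e1 : k + 1 + 2 - 1 = k + 2 := by omega
      have e2 : k + 1 + 1 - 1 = k + 1 := by omega
      have e3 : k + 1 - 1 = k := by omega
      simp only [e1, e2, e3]
      exact a1))
  have e : ∑ n ∈ Ioc p q, ee (x (n - 1)) = ∑ k ∈ Ico p q, ee (x k) := by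
    symm
    refine Finset.sum_bij (fun k _ => k + 1) ?_ ?_ ?_ ?_
    · intro k hk
      rw [Finset.mem_Ico] at hk
      rw [Finset.mem_Ioc]
      omega
    · intro k _ k' _ h
      exact Nat.succ_injective h
    · intro n hn
      rw [Finset.mem_Ioc] at hn
      exact ⟨n - 1, by rw [Finset.mem_Ico]; omega, by omega⟩
    · intro k _
      rfl
  rw [← e]
  exact hk

/-- second derivative test for sequences -/
theorem V2_gen (hKL : KL_stmt) (n : ℕ) (x : ℕ → ℝ) (θ lam β : ℝ) (hθ : 0 < θ) (hθ2 : θ ≤ 1 / 2)
    (hlam : 0 < lam) (hD0 : ∀ k < n, 0 ≤ x (k + 1) - x k) (hDβ : ∀ k < n, x (k + 1) - x k ≤ β) (hβ : 0 ≤ β)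
    (hD : ∀ k, k + 1 < n → lam ≤ (x (k + 1) - x k) - (x (k + 2) - x (k + 1))) :
    ‖∑ k ∈ range (n + 1), ee (x k)‖ ≤ (β + 2) * (2 / θ + 2 * θ / lam + 1) + 1 := by
  classical
  -- spacing
  have hsp : ∀ i d : ℕ, i + d < n → (d : ℝ) * lam ≤ (x (i + 1) - x i) - (x (i + d + 1) - x (i + d)) := by
    intro i d
    induction d with
    | zero => intro _; simp
    | succ d ih =>
      intro h
      have h1 := ih (by omega)
      have h2 := hD (i + d) (by omega)
      rw [show i + (d + 1) + 1 = i + d + 2 by ring, show i + (d + 1) = i + d + 1 by ring]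
      push_cast
      linarith
  have hanti : ∀ i j, i ≤ j → j < n → x (j + 1) - x j ≤ x (i + 1) - x i := by
    intro i j hij hj
    obtain ⟨d, rfl⟩ := Nat.exists_eq_add_of_le hij
    have := hsp i d hj
    have : (0 : ℝ) ≤ d * lam := by positivity
    linarith
  -- the classes
  set μ : ℕ → ℕ := fun k => ⌊x (k + 1) - x k + θ⌋₊ with hμ
  have hμle : ∀ k ∈ range n, μ k ∈ range (⌊β + θ⌋₊ + 1) := by
    intro k hk
    rw [Finset.mem_range] at hk ⊢
    have := Nat.floor_le_floor (show x (k + 1) - x k + θ ≤ β + θ by linarith [hDβ k hk])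
    simp only [hμ]
    omega
  have hμ1 : ∀ k < n, ∀ m, μ k = m ↔ ((m : ℝ) - θ ≤ x (k + 1) - x k ∧ x (k + 1) - x k < m + 1 - θ) := by
    intro k hk m
    have h0 : 0 ≤ x (k + 1) - x k + θ := by linarith [hD0 k hk]
    simp only [hμ]
    rw [Nat.floor_eq_iff h0]
    constructor
    · rintro ⟨h1, h2⟩; exact ⟨by linarith, by linarith⟩
    · rintro ⟨h1, h2⟩; exact ⟨by linarith, by linarith⟩
  -- thresholds
  have hthr : ∀ c : ℝ, ∃ p, p ≤ n ∧ ∀ k < n, (c ≤ x (k + 1) - x k ↔ k < p) := by
    intro c
    exact V2_thr (fun k => c ≤ x (k + 1) - x k) n (fun i j hij hj h => le_trans h (hanti i j hij hj))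
  choose thr hthr1 hthr2 using hthr
  have hclass : ∀ m : ℕ, ‖∑ k ∈ (range n).filter (fun k => μ k = m), ee (x k)‖ ≤
      2 / θ + 2 * θ / lam + 1 := by
    intro m
    have hsplit : (range n).filter (fun k => μ k = m) =
        Ico (thr (m + 1 - θ)) (thr (m + θ)) ∪ Ico (thr (m + θ)) (thr (m - θ)) := by
      ext k
      simp only [Finset.mem_filter, Finset.mem_range, Finset.mem_union, Finset.mem_Ico]
      constructor
      · rintro ⟨hk, hkm⟩
        rw [hμ1 k hk m] at hkm
        have a1 := hthr2 (m + 1 - θ) k hk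
        have a2 := hthr2 (m + θ) k hk
        have a3 := hthr2 (m - θ) k hk
        have b1 : ¬ k < thr (m + 1 - θ) := fun h => absurd (a1.2 h) (not_le.2 hkm.2)
        have b3 : k < thr (m - θ) := a3.1 hkm.1
        by_cases b2 : k < thr (m + θ)
        · left; exact ⟨by omega, b2⟩
        · right; exact ⟨by omega, b3⟩
      · intro h
        have hk : k < n := by
          rcases h with h | h
          · exact lt_of_lt_of_le h.2 (hthr1 _)
          · exact lt_of_lt_of_le h.2 (hthr1 _)
        refine ⟨hk, ?_⟩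
        rw [hμ1 k hk m]
        have a1 := hthr2 (m + 1 - θ) k hk
        have a2 := hthr2 (m + θ) k hk
        have a3 := hthr2 (m - θ) k hk
        rcases h with h | h
        · have c2 := a2.2 h.2
          have c1 : ¬ ((m : ℝ) + 1 - θ ≤ x (k + 1) - x k) := fun hh => by
            have := a1.1 hh
            omega
          push Not at c1
          exact ⟨by linarith, c1⟩
        · have c3 := a3.2 h.2
          have c2 : ¬ ((m : ℝ) + θ ≤ x (k + 1) - x k) := fun hh => by
            have := a2.1 hh
            omega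
          push Not at c2
          exact ⟨c3, by linarith⟩
    have hdisj : Disjoint (Ico (thr (m + 1 - θ)) (thr (m + θ))) (Ico (thr (m + θ)) (thr (m - θ))) :=
      Finset.Ico_disjoint_Ico_consecutive _ _ _
    rw [hsplit, Finset.sum_union hdisj]
    have hgood : ‖∑ k ∈ Ico (thr (m + 1 - θ)) (thr (m + θ)), ee (x k)‖ ≤ 2 / θ := by
      refine V2_good hKL x θ hθ hθ2 m _ _ ?_ ?_ ?_
      · intro k _ hk2
        exact (hthr2 (m + θ) k (lt_of_lt_of_le hk2 (hthr1 _))).2 hk2
      · intro k hk1 hk2
        have hk : k < n := lt_of_lt_of_le hk2 (hthr1 _)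
        by_contra hcon
        push Not at hcon
        have := (hthr2 (m + 1 - θ) k hk).1 hcon.le
        omega
      · intro k _ hk2
        have hk : k + 1 < n := lt_of_lt_of_le hk2 (hthr1 _)
        have := hanti k (k + 1) (by omega) hk
        rwa [show k + 1 + 1 = k + 2 by ring] at this
    have hbad : ‖∑ k ∈ Ico (thr (m + θ)) (thr (m - θ)), ee (x k)‖ ≤ 2 * θ / lam + 1 := by
      refine le_trans (norm_sum_le _ _) ?_
      simp only [V2_norm_ee, Finset.sum_const, Nat.card_Ico, nsmul_eq_mul, mul_one]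
      rcases Nat.lt_or_ge (thr (m + θ)) (thr (m - θ)) with hlt | hge
      · obtain ⟨d, hd⟩ : ∃ d, thr (m - θ) = thr (m + θ) + d + 1 :=
          ⟨thr (m - θ) - thr (m + θ) - 1, by omega⟩
        have hn : thr (m + θ) + d < n := by
          have := hthr1 (m - θ)
          omega
        have h1 := hsp (thr (m + θ)) d hn
        have h2 : x (thr (m + θ) + 1) - x (thr (m + θ)) < m + θ := by
          by_contra hcon
          push Not at hcon
          have := (hthr2 (m + θ) (thr (m + θ)) (by omega)).1 hcon
          omega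
        have h3 : (m : ℝ) - θ ≤ x (thr (m + θ) + d + 1) - x (thr (m + θ) + d) :=
          (hthr2 (m - θ) (thr (m + θ) + d) hn).2 (by omega)
        have h4 : (d : ℝ) ≤ 2 * θ / lam := by
          rw [le_div_iff₀ hlam]
          linarith
        have h5 : ((thr (m - θ) - thr (m + θ) : ℕ) : ℝ) = d + 1 := by
          have : thr (m - θ) - thr (m + θ) = d + 1 := by omega
          rw [this]; push_cast; ring
        rw [h5]
        linarith
      · have h5 : thr (m - θ) - thr (m + θ) = 0 := by omega
        rw [h5]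
        simp only [Nat.cast_zero]
        positivity
    refine le_trans (norm_add_le _ _) ?_
    linarith
  rw [Finset.sum_range_succ]
  have hfib : ∑ k ∈ range n, ee (x k) = ∑ m ∈ range (⌊β + θ⌋₊ + 1),
      ∑ k ∈ (range n).filter (fun k => μ k = m), ee (x k) :=
    (Finset.sum_fiberwise_of_maps_to hμle _).symm
  rw [hfib]
  refine le_trans (norm_add_le _ _) ?_
  rw [V2_norm_ee]
  have h1 : ‖∑ m ∈ range (⌊β + θ⌋₊ + 1), ∑ k ∈ (range n).filter (fun k => μ k = m), ee (x k)‖ ≤
      ((⌊β + θ⌋₊ + 1 : ℕ) : ℝ) * (2 / θ + 2 * θ / lam + 1) := by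
    refine le_trans (norm_sum_le _ _) ?_
    refine le_trans (Finset.sum_le_sum fun m _ => hclass m) ?_
    rw [Finset.sum_const, Finset.card_range, nsmul_eq_mul]
  have h2 : ((⌊β + θ⌋₊ + 1 : ℕ) : ℝ) ≤ β + 2 := by
    have := Nat.floor_le (show 0 ≤ β + θ by linarith)
    push_cast
    linarith
  have h3 : 0 ≤ 2 / θ + 2 * θ / lam + 1 := by positivity
  have h4 := mul_le_mul_of_nonneg_right h2 h3
  linarith

theorem V2 (hKL : KL_stmt) : V2_stmt := by
  intro f a b l α hab hl hα hf
  have hN : (0 : ℝ) ≤ (b : ℝ) - a := by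
    have : (a : ℝ) ≤ b := by exact_mod_cast hab
    linarith
  set s : ℝ := l ^ (1 / 2 : ℝ) with hs
  have hs0 : 0 < s := Real.rpow_pos_of_pos hl _
  have hss : s * s = l := by
    rw [hs, ← Real.rpow_add hl]
    norm_num
  have hsinv : l ^ (-(1 / 2) : ℝ) = 1 / s := by
    rw [Real.rpow_neg hl.le, ← hs, one_div]
  rw [hsinv]
  -- trivial bound
  have htriv : ‖∑ n ∈ Finset.Ioc a b, ee (f n)‖ ≤ (b : ℝ) - a := by
    refine le_trans (norm_sum_le _ _) ?_
    simp only [V2_norm_ee, Finset.sum_const, Nat.card_Ioc, nsmul_eq_mul, mul_one]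
    rw [Nat.cast_sub hab]
  have hsi : 0 < 1 / s := by positivity
  rcases le_or_gt 1 l with hl1 | hl1
  · have hs1 : 1 ≤ s := by
      by_contra hcon
      push Not at hcon
      nlinarith
    have h1 : (b : ℝ) - a ≤ ((b : ℝ) - a) * s := le_mul_of_one_le_right hN hs1
    have h2 : 0 ≤ ((b : ℝ) - a) * s := by positivity
    have h3 : ((b : ℝ) - a) * s + 1 / s ≤ 20 * α * (((b : ℝ) - a) * s + 1 / s) :=
      le_mul_of_one_le_left (by positivity) (by linarith)
    linarith
  · have hs1 : s < 1 := by
      by_contra hcon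
      push Not at hcon
      nlinarith
    have hsi1 : 1 ≤ 1 / s := by
      rw [le_div_iff₀ hs0]
      linarith
    rcases Nat.lt_or_ge b (a + 2) with hb | hb
    · -- at most one term
      have h1 : (b : ℝ) - a ≤ 1 := by
        have : (b : ℝ) ≤ a + 1 := by
          have : b ≤ a + 1 := by omega
          exact_mod_cast this
        linarith
      have h2 : 0 ≤ ((b : ℝ) - a) * s := by positivity
      have h3 : ((b : ℝ) - a) * s + 1 / s ≤ 20 * α * (((b : ℝ) - a) * s + 1 / s) :=
        le_mul_of_one_le_left (by positivity) (by linarith)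
      linarith
    · obtain ⟨n, hn⟩ : ∃ n, b = a + n + 2 := ⟨b - a - 2, by omega⟩
      -- increments
      set D : ℕ → ℝ := fun k => f (a + 1 + k) - f (a + 1 + k + 1) with hD
      have hDd : ∀ k, k + 1 < n + 1 → l ≤ D k - D (k + 1) ∧ D k - D (k + 1) ≤ α * l := by
        intro k hk
        have h1 := hf (a + 1 + k) (by omega) (by omega)
        simp only [hD]
        rw [show a + 1 + (k + 1) = a + 1 + k + 1 by ring, show a + 1 + k + 1 + 1 = a + 1 + k + 2 by ring]
        constructor <;> linarith [h1.1, h1.2]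
      have hD1 : ∀ d k, k + d < n + 1 → D (k + d) ≤ D k ∧ D k ≤ D (k + d) + d * (α * l) := by
        intro d
        induction d with
        | zero => intro k _; simp
        | succ d ih =>
          intro k hk
          have h1 := ih k (by omega)
          have h2 := hDd (k + d) (by omega)
          rw [show k + (d + 1) = k + d + 1 by ring]
          push_cast
          constructor <;> nlinarith [h1.1, h1.2, h2.1, h2.2]
      set c : ℤ := ⌊D n⌋ with hc
      have hc1 : (c : ℝ) ≤ D n := Int.floor_le _
      have hc2 : D n < c + 1 := Int.lt_floor_add_one _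
      set x : ℕ → ℝ := fun k => -f (a + 1 + k) - (c : ℝ) * k with hx
      have hxD : ∀ k, x (k + 1) - x k = D k - c := by
        intro k
        simp only [hx, hD]
        rw [show a + 1 + (k + 1) = a + 1 + k + 1 by ring]
        push_cast
        ring
      have hnN : ((n : ℝ)) ≤ (b : ℝ) - a := by
        rw [hn]
        push_cast
        linarith
      have hαl : 0 < α * l := by positivity
      have hβ0 : 0 ≤ α * l * ((b : ℝ) - a) + 1 := by positivity
      have hgen := V2_gen hKL (n + 1) x (s / 2) l (α * l * ((b : ℝ) - a) + 1) (by positivity) (by linarith) hl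
        (by
          intro k hk
          obtain ⟨d, hd⟩ : ∃ d, n = k + d := ⟨n - k, by omega⟩
          have h1 := (hD1 d k (by omega)).1
          rw [← hd] at h1
          rw [hxD]
          linarith)
        (by
          intro k hk
          obtain ⟨d, hd⟩ : ∃ d, n = k + d := ⟨n - k, by omega⟩
          have h1 := (hD1 d k (by omega)).2
          rw [← hd] at h1
          rw [hxD]
          have h2 : (d : ℝ) ≤ (b : ℝ) - a := by
            have : (d : ℝ) ≤ n := by
              have : d ≤ n := by omega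
              exact_mod_cast this
            linarith
          have h3 : (d : ℝ) * (α * l) ≤ α * l * ((b : ℝ) - a) := by
            rw [mul_comm (d : ℝ)]
            exact mul_le_mul_of_nonneg_left h2 hαl.le
          linarith)
        hβ0
        (by
          intro k hk
          have h1 := (hDd k hk).1
          have h2 := hxD (k + 1)
          rw [show k + 1 + 1 = k + 2 by ring] at h2
          rw [h2, hxD]
          linarith)
      have hsum : ‖∑ k ∈ Finset.Ioc a b, ee (f k)‖ = ‖∑ k ∈ range (n + 1 + 1), ee (x k)‖ := by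
        have e1 : ∑ k ∈ range (n + 1 + 1), ee (x k) = (starRingEnd ℂ) (∑ k ∈ Finset.Ioc a b, ee (f k)) := by
          rw [map_sum]
          refine Finset.sum_bij (fun k _ => a + 1 + k) ?_ ?_ ?_ ?_
          · intro k hk
            rw [Finset.mem_range] at hk
            rw [Finset.mem_Ioc]
            omega
          · intro k _ k' _ h
            have h' : a + 1 + k = a + 1 + k' := h
            omega
          · intro m hm
            rw [Finset.mem_Ioc] at hm
            exact ⟨m - (a + 1), by rw [Finset.mem_range]; omega, by omega⟩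
          · intro k _
            rw [V2_conj_ee]
            simp only [hx]
            rw [V2_ee_sub_int]
        rw [e1, RCLike.norm_conj]
      rw [hsum]
      refine hgen.trans ?_
      have e1 : 2 / (s / 2) = 4 * (1 / s) := by
        field_simp
        norm_num
      have e2 : 2 * (s / 2) / l = 1 / s := by
        rw [← hss]
        field_simp
      rw [e1, e2]
      have e3 : l * (1 / s) = s := by
        rw [← hss]
        field_simp
      have hNs : 0 ≤ ((b : ℝ) - a) * s := by positivity
      have h1 : 4 * (1 / s) + 1 / s + 1 ≤ 6 * (1 / s) := by linarith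
      have h2 : (α * l * ((b : ℝ) - a) + 1 + 2) * (4 * (1 / s) + 1 / s + 1) ≤
          (α * l * ((b : ℝ) - a) + 1 + 2) * (6 * (1 / s)) := by
        refine mul_le_mul_of_nonneg_left h1 ?_
        linarith
      have h3 : (α * l * ((b : ℝ) - a) + 1 + 2) * (6 * (1 / s)) =
          6 * α * (((b : ℝ) - a) * s) + 18 * (1 / s) := by
        have : (α * l * ((b : ℝ) - a) + 1 + 2) * (6 * (1 / s)) =
            6 * α * (((b : ℝ) - a) * (l * (1 / s))) + 18 * (1 / s) := by ring
        rw [this, e3]
      have h4 : 20 * α * (((b : ℝ) - a) * s + 1 / s) =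
          20 * α * (((b : ℝ) - a) * s) + 20 * α * (1 / s) := by ring
      rw [h4]
      have h5 : 6 * α * (((b : ℝ) - a) * s) ≤ 20 * α * (((b : ℝ) - a) * s) := by
        refine mul_le_mul_of_nonneg_right ?_ hNs
        linarith
      have h6 : 20 * (1 / s) ≤ 20 * α * (1 / s) := by
        refine mul_le_mul_of_nonneg_right ?_ hsi.le
        linarith
      linarith

end Pool.Agent.LDH
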